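import Mathlib
import Pool.Agent.Helper43.Gx.Goals

/-! # X3a: one point seen from the row `J` (MP_d3128a_ag) -/

set_option autoImplicit false

namespace Pool.Agent.Helper43.Gx.PkX3a

open Finset Pool.Agent.Lead.Sh
open Pool.Agent.Helper43.Gm (st mv nn SS Run Pri)
open Pool.Agent.Helper43.Gm.PkE (KK ek ex ek_lt ek_ge ex_lt ex_ge)
open Pool.Agent.Helper43.Gm.PkD (od nn_eq)

theorem down {S : Finset ℕ} (h : ∀ y ∈ S, ∀ z < y, z ∈ S) : S = range S.card := by
  apply eq_of_subset_of_card_le
  · intro y hy
    rw [mem_range]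
    have h1 : range (y + 1) ⊆ S := by
      intro z hz
      rw [mem_range] at hz
      rcases Nat.lt_or_ge z y with h2 | h2
      · exact h y hy z h2
      · rwa [show z = y by omega]
    have h2 := card_le_card h1
    rw [card_range] at h2
    omega
  · rw [card_range]

theorem mono_run {M J : ℕ} {ν κ x : ℕ → ℕ} (h : Run M J ν κ x) {y z : ℕ} (hyz : y ≤ z)
    (hz : z < J) : κ y ≤ κ z := by
  induction z with
  | zero => rw [show y = 0 by omega]
  | succ z ih =>
    rcases Nat.lt_or_ge z y with h1 | h1
    · rw [show y = z + 1 by omega]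
    · exact (ih h1 (by omega)).trans (h.mono z hz)

theorem goalX3a : GoalX3a := by
  intro M J ν κ x hR hJ c s0 hs0 hc hlow
  -- the point is not old before the row s0
  have hκ0 : c ≤ κ s0 := by
    unfold aa at hc
    split_ifs at hc <;> omega
  have hx0 : κ s0 = c → 0 < x s0 := by
    intro h
    unfold aa at hc
    split_ifs at hc with h1
    · exact h1
    · omega
  -- x grows on the moving rows
  have hgrow : ∀ k, s0 + k < J → κ (s0 + k) = c → k + 1 ≤ x (s0 + k) := by
    intro k
    induction k with
    | zero =>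
      intro _ h2
      exact hx0 h2
    | succ k ih =>
      intro h1 h2
      have h3 : κ (s0 + k) = c := by
        have h4 := mono_run hR (show s0 + k ≤ s0 + (k + 1) by omega) h1
        have h5 := mono_run hR (show s0 ≤ s0 + k by omega) (by omega)
        omega
      have h4 := ih (by omega) h3
      have h5 := hR.inc (s0 + k) (by omega) (by omega)
        (by rw [show s0 + k + 1 = s0 + (k + 1) by omega, h2, h3])
      rw [show s0 + k + 1 = s0 + (k + 1) by omega] at h5
      omega
  have hgrow' : ∀ y < J, s0 ≤ y → κ y = c → y + 1 ≤ x y + s0 := by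
    intro y hy h1 h2
    have := hgrow (y - s0) (by omega) (by rwa [show s0 + (y - s0) = y by omega])
    rw [show s0 + (y - s0) = y by omega] at this
    omega
  have hge : ∀ y < J, κ y = c → 0 < x y → s0 ≤ y := by
    intro y _ h1 h2
    by_contra h3
    have h4 := hlow y (by omega)
    unfold aa at h4
    rw [if_pos h2] at h4
    omega
  refine ⟨?_, fun y hy h1 h2 => ⟨hge y hy h1 h2, hgrow' y hy (hge y hy h1 h2) h1⟩⟩
  intro t ht
  -- the first old row
  obtain ⟨st0, hst0⟩ : ∃ n, n = ((range J).filter (fun y => κ y ≤ c)).card := ⟨_, rfl⟩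
  have hseg : (range J).filter (fun y => κ y ≤ c) = range st0 := by
    rw [hst0]
    refine down fun y hy z hz => ?_
    rw [mem_filter, mem_range] at hy ⊢
    exact ⟨by omega, (mono_run hR hz.le hy.1).trans hy.2⟩
  have hsegm : ∀ y, y < st0 ↔ y < J ∧ κ y ≤ c := by
    intro y
    rw [← mem_range, ← hseg, mem_filter, mem_range]
  have hst0J : st0 ≤ J := by
    rw [hst0]
    exact (card_filter_le _ _).trans (by rw [card_range])
  have hs0st : s0 ≤ st0 := by
    by_contra h
    have h1 := hsegm st0
    have h2 := hlow st0 (by omega)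
    have h3 : κ st0 ≤ c := by
      unfold aa at h2
      omega
    have := h1.2 ⟨by omega, h3⟩
    omega
  -- the moving rows
  have hmov : (range J).filter (fun y => κ y = c ∧ 0 < x y) = Ico s0 st0 := by
    ext y
    rw [mem_filter, mem_range, mem_Ico]
    constructor
    · rintro ⟨h1, h2, h3⟩
      exact ⟨hge y h1 h2 h3, (hsegm y).2 ⟨h1, h2.le⟩⟩
    · rintro ⟨h1, h2⟩
      obtain ⟨h3, h4⟩ := (hsegm y).1 h2
      have h5 := mono_run hR h1 h3
      have h6 : κ y = c := by omega
      have h7 := hgrow' y h3 h1 h6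
      exact ⟨h3, h6, by omega⟩
  have hKK : c < KK κ x J := by
    unfold KK
    have h1 := mono_run hR (show s0 ≤ J - 1 by omega) (by omega)
    rcases Nat.lt_or_ge c (κ (J - 1)) with h2 | h2
    · omega
    · have h3 : κ (J - 1) = c := by omega
      have h4 := hgrow' (J - 1) (by omega) (by omega) h3
      rw [if_pos (by omega)]
      omega
  -- the row z
  obtain ⟨z, hz⟩ : ∃ z, z = J + ν c - 1 - t := ⟨_, rfl⟩
  have hν := hR.ν1 c
  rw [← hz]
  have hcz : c < ek κ x J z := by
    rcases ht with h | ⟨h1, h2⟩
    · rw [ek_ge (by omega)]; exact hKK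
    · rw [show z = J - 1 by omega, ek_lt (by omega)]; exact h2
  have hJz : J ≤ z ∨ (z + 1 = J ∧ c < κ (J - 1)) := by
    rcases ht with h | ⟨h1, h2⟩
    · left; omega
    · right; exact ⟨by omega, h2⟩
  have hst : st (ek κ x J) c z = st0 := by
    unfold st
    rw [hst0]
    congr 1
    ext y
    rw [mem_filter, mem_filter, mem_range, mem_range]
    rcases hJz with h | ⟨h1, h2⟩
    · constructor
      · rintro ⟨h1, h2⟩
        rcases Nat.lt_or_ge y J with h3 | h3
        · rw [ek_lt h3] at h2
          exact ⟨h3, h2⟩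
        · rw [ek_ge h3] at h2
          omega
      · rintro ⟨h1, h2⟩
        rw [ek_lt h1]
        exact ⟨by omega, h2⟩
    · constructor
      · rintro ⟨h3, h4⟩
        rw [ek_lt (by omega)] at h4
        exact ⟨by omega, h4⟩
      · rintro ⟨h3, h4⟩
        rw [ek_lt h3]
        refine ⟨?_, h4⟩
        by_contra h5
        rw [show y = J - 1 by omega] at h4
        omega
  have hmv : mv (ek κ x J) (ex x J) ν c z =
      (range J).filter (fun y => κ y = c ∧ 0 < x y ∧ ¬ (x y + J < t + y + 2)) := by
    unfold mv
    ext y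
    rw [mem_filter, mem_filter, mem_range, mem_range]
    constructor
    · rintro ⟨h1, h2, h3, h4⟩
      rcases Nat.lt_or_ge y J with h5 | h5
      · rw [ek_lt h5] at h2
        rw [ex_lt h5] at h3 h4
        exact ⟨h5, h2, h3, by omega⟩
      · rw [ex_ge h5] at h3
        omega
    · rintro ⟨h1, h2, h3, h4⟩
      rw [ek_lt h1, ex_lt h1]
      refine ⟨?_, h2, h3, by omega⟩
      rcases hJz with h | ⟨h5, h6⟩
      · omega
      · by_contra h7
        rw [show y = J - 1 by omega] at h2
        omega
  rw [nn_eq, if_neg (by omega), if_neg (by omega)]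
  unfold od
  rw [hst, hmv]
  have hcard : ((range J).filter (fun y => κ y = c ∧ 0 < x y ∧ x y + J < t + y + 2)).card +
      ((range J).filter (fun y => κ y = c ∧ 0 < x y ∧ ¬ (x y + J < t + y + 2))).card =
      st0 - s0 := by
    have h1 := card_filter_add_card_filter_not (s := (range J).filter
      (fun y => κ y = c ∧ 0 < x y)) (fun y => x y + J < t + y + 2)
    rw [filter_filter, filter_filter, hmov, Nat.card_Ico] at h1
    have e1 : (range J).filter (fun y => κ y = c ∧ 0 < x y ∧ x y + J < t + y + 2) =
        (range J).filter (fun y => (κ y = c ∧ 0 < x y) ∧ x y + J < t + y + 2) :=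
      filter_congr fun y _ => by rw [and_assoc]
    have e2 : (range J).filter (fun y => κ y = c ∧ 0 < x y ∧ ¬ (x y + J < t + y + 2)) =
        (range J).filter (fun y => (κ y = c ∧ 0 < x y) ∧ ¬ (x y + J < t + y + 2)) :=
      filter_congr fun y _ => by rw [and_assoc]
    rw [e1, e2]
    exact h1
  have hzero : t + 1 + s0 ≤ J →
      ((range J).filter (fun y => κ y = c ∧ 0 < x y ∧ x y + J < t + y + 2)).card = 0 := by
    intro h
    rw [card_eq_zero, filter_eq_empty_iff]
    rintro y hy ⟨h1, h2, h3⟩
    rw [mem_range] at hy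
    have h4 := hge y hy h1 h2
    have h5 := hgrow' y hy h4 h1
    omega
  rcases Nat.lt_or_ge J (t + 1 + s0) with h | h
  · rcases hJz with h6 | ⟨h6, h7⟩
    · omega
    · have h8 : st0 ≤ J - 1 := by
        by_contra h9
        have := (hsegm (J - 1)).1 (by omega)
        omega
      omega
  · have := hzero h
    omega

end Pool.Agent.Helper43.Gx.PkX3a
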